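import Pool.Agent.Lib.MP_51da40_an.AA.Fin

/-! Almost all of the `n` possible components of a lemniscate of degree `n` can have diameter
greater than `1 + c`, for a fixed `c > 0`. -/

set_option autoImplicit false

theorem Pool.Agent.Results.MP_51da40_an.AlmostAll.result (η : ℝ) (hη : 0 < η) :
    ∃ c : ℝ, 0 < c ∧ ∃ N : ℕ, ∀ n : ℕ, N ≤ n →
      ∃ f : Polynomial ℂ, f.Monic ∧ f.natDegree = n ∧ ∃ s : Finset (Set ℂ),
        (∀ C ∈ s, (∃ z : ℂ, ‖f.eval z‖ ≤ 1 ∧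
            connectedComponentIn {w : ℂ | ‖f.eval w‖ ≤ 1} z = C) ∧
          1 + c < Metric.diam C) ∧
        (1 - η) * (n : ℝ) ≤ (s.card : ℝ) := by
  obtain ⟨c, hc, N, h⟩ := Pool.Agent.Lib.MP_51da40_an.AA.main (β := min (η / 4) (1 / 2))
    (lt_min (by positivity) (by norm_num)) (min_le_right _ _)
  refine ⟨c, hc, N, fun n hn => ?_⟩
  obtain ⟨f, h1, h2, s, h3, h4⟩ := h n hn
  refine ⟨f, h1, h2, s, h3, le_trans (mul_le_mul_of_nonneg_right ?_ (Nat.cast_nonneg n)) h4⟩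
  linarith [min_le_left (η / 4) (1 / 2)]
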