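import Pool.Agent.Lib.MP_51da40_an.Sharp

open Polynomial Filter

namespace Pool.Agent.Results.MP_51da40_an.Linear

/-- The connected components of `{z : |f(z)| ≤ 1}` of diameter greater than `1 + c`. -/
def bigComponents (c : ℝ) (f : ℂ[X]) : Set (Set ℂ) :=
  {C | (∃ z : ℂ, ‖f.eval z‖ ≤ 1 ∧ C = connectedComponentIn {w : ℂ | ‖f.eval w‖ ≤ 1} z) ∧
    ∃ u ∈ C, ∃ v ∈ C, 1 + c < ‖u - v‖}

/-- The maximal number `N n` of components of diameter greater than `1 + c` exists for every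
degree `n ≥ 1`; it is at least `δ n` for all large `n` if `c < 3`, and it is zero if `c ≥ 3`. -/
theorem result (c : ℝ) : ∃ N : ℕ → ℕ,
    (∀ n : ℕ, 1 ≤ n → IsGreatest {m : ℕ∞ | ∃ f : ℂ[X], f.Monic ∧ f.natDegree = n ∧
      (bigComponents c f).encard = m} (N n : ℕ∞)) ∧
    (c < 3 → ∃ δ : ℝ, 0 < δ ∧ ∃ n₀ : ℕ, ∀ n : ℕ, n₀ ≤ n → δ * n ≤ N n) ∧
    (3 ≤ c → ∀ n : ℕ, 1 ≤ n → N n = 0) := by
  have h1 : ∀ n : ℕ, ∃ N : ℕ, 1 ≤ n → IsGreatest {m : ℕ∞ | ∃ f : ℂ[X], f.Monic ∧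
      f.natDegree = n ∧ (bigComponents c f).encard = m} (N : ℕ∞) := fun n => by
    rcases Nat.eq_zero_or_pos n with rfl | hn
    · exact ⟨0, fun h => absurd h (by norm_num)⟩
    have h2 : {m : ℕ∞ | ∃ f : ℂ[X], f.Monic ∧ f.natDegree = n ∧
        (bigComponents c f).encard = m} ⊆ Set.Iic (n : ℕ∞) := by
      rintro _ ⟨f, -, rfl, rfl⟩
      exact (Set.encard_le_encard fun C hC => hC.1).trans
        (Pool.Agent.Lib.MP_51da40_an.Sharp.encard_le hn)
    have h3 := (sSup_le h2).trans_lt (ENat.natCast_lt_top n)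
    have : Nonempty {m : ℕ∞ | ∃ f : ℂ[X], f.Monic ∧ f.natDegree = n ∧
        (bigComponents c f).encard = m} :=
      ⟨⟨_, X ^ n, monic_X_pow n, natDegree_X_pow n, rfl⟩⟩
    obtain ⟨N, hN⟩ := ENat.ne_top_iff_exists.1 h3.ne
    exact ⟨N, fun _ => hN ▸ ⟨ENat.sSup_mem_of_nonempty_of_lt_top h3, fun _ h => le_sSup h⟩⟩
  choose N hN using h1
  refine ⟨N, hN, fun hc => ?_, fun hc n hn => ?_⟩
  · obtain ⟨δ, hδ, n₀, h⟩ := Pool.Agent.Lib.MP_51da40_an.Sharp.main (D := 1 + c) (by linarith)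
    refine ⟨δ, hδ, max n₀ 1, fun n hn => ?_⟩
    obtain ⟨f, h2, h3, s, h4, h5⟩ := h n (le_of_max_le_left hn)
    have h6 : (s : Set (Set ℂ)).encard ≤ N n :=
      (Set.encard_le_encard (t := bigComponents c f) fun C hC => by
        simpa only [bigComponents, Set.mem_ofPred_eq, dist_eq_norm] using h5 C hC).trans
        ((hN n (le_of_max_le_right hn)).2 ⟨f, h2, h3, rfl⟩)
    rw [Set.encard_coe_eq_coe_finsetCard] at h6
    exact h4.trans (by exact_mod_cast h6)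
  · obtain ⟨f, h2, h3, h4⟩ := (hN n hn).1
    rw [(Set.eq_empty_iff_forall_notMem (s := bigComponents c f)).2 ?_, Set.encard_empty] at h4
    · exact_mod_cast h4.symm
    rintro _ ⟨⟨z, -, rfl⟩, u, hu, v, hv, h5⟩
    have := Pool.Agent.Lib.MP_51da40_an.Sharp.dist_lt h2 (by omega)
      isPreconnected_connectedComponentIn
      (fun w hw => connectedComponentIn_subset {w : ℂ | ‖f.eval w‖ ≤ 1} z hw) hu hv
    rw [dist_eq_norm] at this
    linarith

end Pool.Agent.Results.MP_51da40_an.Linear
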